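import Mathlib

set_option autoImplicit false

namespace Pool.Agent.Results.MP_df87fb_al.HyperbolicExtensions

open Polynomial

/-! ### The sum of the absolute values of the coefficients -/

section l1

variable {R : Type*} [NormedCommRing R]

noncomputable def l1 (P : R[X]) : ℝ := ∑ i ∈ P.support, ‖P.coeff i‖

theorem l1_eq (P : R[X]) {s : Finset ℕ} (h : P.support ⊆ s) : l1 P = ∑ i ∈ s, ‖P.coeff i‖ :=
  Finset.sum_subset h fun i _ hi => by rw [notMem_support_iff.1 hi, norm_zero]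

theorem l1_nonneg (P : R[X]) : 0 ≤ l1 P := Finset.sum_nonneg fun _ _ => norm_nonneg _

theorem l1_zero : l1 (0 : R[X]) = 0 := by simp [l1]

theorem l1_add (P Q : R[X]) : l1 (P + Q) ≤ l1 P + l1 Q := by
  classical
  rw [l1_eq (P + Q) (s := P.support ∪ Q.support) support_add, l1_eq P Finset.subset_union_left,
    l1_eq Q Finset.subset_union_right, ← Finset.sum_add_distrib]
  exact Finset.sum_le_sum fun i _ => by rw [coeff_add]; exact norm_add_le _ _

theorem l1_sum {ι : Type*} (s : Finset ι) (f : ι → R[X]) :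
    l1 (∑ i ∈ s, f i) ≤ ∑ i ∈ s, l1 (f i) := by
  classical
  induction s using Finset.induction_on with
  | empty => simp [l1_zero]
  | insert a s ha ih =>
    rw [Finset.sum_insert ha, Finset.sum_insert ha]
    exact (l1_add _ _).trans (by linarith)

theorem l1_shift (a : R) (k : ℕ) (P : R[X]) : l1 (C a * X ^ k * P) ≤ ‖a‖ * l1 P := by
  classical
  rw [l1_eq _ (s := P.support.map (addRightEmbedding k)) ?_, Finset.sum_map, l1, Finset.mul_sum]
  · refine Finset.sum_le_sum fun i _ => ?_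
    rw [mul_assoc, coeff_C_mul, addRightEmbedding_apply, coeff_X_pow_mul]
    exact norm_mul_le _ _
  · intro i hi
    rw [mem_support_iff, mul_assoc, coeff_C_mul, coeff_X_pow_mul'] at hi
    by_cases h : k ≤ i
    · rw [if_pos h] at hi
      rw [Finset.mem_map]
      refine ⟨i - k, mem_support_iff.2 fun h0 => hi (by rw [h0, mul_zero]), ?_⟩
      simp [h]
    · rw [if_neg h, mul_zero] at hi
      exact absurd rfl hi

theorem l1_mul (P Q : R[X]) : l1 (P * Q) ≤ l1 P * l1 Q := by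
  have h : P * Q = ∑ i ∈ P.support, C (P.coeff i) * X ^ i * Q := by
    rw [← Finset.sum_mul, ← P.as_sum_support_C_mul_X_pow]
  rw [h]
  refine (l1_sum _ _).trans ?_
  rw [l1, Finset.sum_mul]
  exact Finset.sum_le_sum fun i _ => l1_shift _ _ _

theorem l1_C_mul (a : R) (P : R[X]) : l1 (C a * P) ≤ ‖a‖ * l1 P := by
  have := l1_shift a 0 P
  rwa [pow_zero, mul_one] at this

theorem l1_C_le (a : R) : l1 (C a) ≤ ‖a‖ := by
  classical
  rw [l1_eq (C a) (s := {0}) (support_C_subset a)]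
  simp

variable [NormOneClass R]

theorem l1_mono (a : R) (k : ℕ) : l1 (C a * X ^ k) ≤ ‖a‖ := by
  have h := l1_shift a k (1 : R[X])
  rw [mul_one] at h
  refine h.trans ?_
  have h2 : l1 (1 : R[X]) ≤ 1 := by
    have := l1_C_le (1 : R)
    rwa [C_1, norm_one] at this
  exact (mul_le_mul_of_nonneg_left h2 (norm_nonneg _)).trans (by rw [mul_one])

theorem l1_X_pow_mul (k : ℕ) (P : R[X]) : l1 (X ^ k * P) ≤ l1 P := by
  have := l1_shift (1 : R) k P
  rwa [C_1, one_mul, norm_one, one_mul] at this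

omit [NormOneClass R] in
theorem l1_split (P : R[X]) (k : ℕ) :
    l1 (P - C (P.coeff k) * X ^ k) + ‖P.coeff k‖ = l1 P := by
  classical
  have hs : (P - C (P.coeff k) * X ^ k).support ⊆ insert k P.support := by
    intro i hi
    rw [mem_support_iff, coeff_sub, coeff_C_mul, coeff_X_pow] at hi
    rw [Finset.mem_insert, mem_support_iff]
    by_cases h : i = k
    · exact Or.inl h
    · right
      rw [if_neg h, mul_zero, sub_zero] at hi
      exact hi
  rw [l1_eq _ hs, l1_eq P (Finset.subset_insert k _),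
    ← Finset.sum_erase_add _ _ (Finset.mem_insert_self k P.support),
    ← Finset.sum_erase_add _ _ (Finset.mem_insert_self k P.support)]
  have h1 : ‖(P - C (P.coeff k) * X ^ k).coeff k‖ = 0 := by
    rw [coeff_sub, coeff_C_mul, coeff_X_pow, if_pos rfl, mul_one, sub_self, norm_zero]
  rw [h1, add_zero]
  congr 1
  refine Finset.sum_congr rfl fun i hi => ?_
  rw [coeff_sub, coeff_C_mul, coeff_X_pow, if_neg (Finset.ne_of_mem_erase hi), mul_zero, sub_zero]

end l1

/-! ### A lopsided characteristic polynomial -/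

theorem lop (ε : ℝ) (hε : 0 < ε) (S : Multiset ℂ) (h : ∀ μ ∈ S, ‖μ‖ ≤ ε ∨ 1 ≤ ε * ‖μ‖) :
    ∃ (Λ : ℂ) (k : ℕ), Λ ≠ 0 ∧ k ≤ Multiset.card S ∧
      l1 ((S.map fun μ => X - C μ).prod - C Λ * X ^ k) ≤
        ‖Λ‖ * ((1 + ε) ^ Multiset.card S - 1) := by
  induction S using Multiset.induction_on with
  | empty => exact ⟨1, 0, one_ne_zero, le_rfl, by simp [l1_zero]⟩
  | cons μ S ih =>
    obtain ⟨Λ, k, hΛ, hk, hl⟩ := ih fun ν hν => h ν (Multiset.mem_cons_of_mem hν)
    set p := (S.map fun μ => X - C μ).prod with hp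
    rw [Multiset.map_cons, Multiset.prod_cons, Multiset.card_cons, ← hp]
    have hΛp : 0 < ‖Λ‖ := norm_pos_iff.2 hΛ
    have hpl : l1 p ≤ ‖Λ‖ * (1 + ε) ^ Multiset.card S := by
      have h1 := l1_add (p - C Λ * X ^ k) (C Λ * X ^ k)
      rw [sub_add_cancel] at h1
      have h2 := l1_mono Λ k
      nlinarith
    have hpow : 0 < (1 + ε) ^ Multiset.card S := by positivity
    rcases h μ (Multiset.mem_cons_self μ S) with h1 | h1
    · refine ⟨Λ, k + 1, hΛ, by omega, ?_⟩
      have e : (X - C μ) * p - C Λ * X ^ (k + 1) =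
          X ^ 1 * (p - C Λ * X ^ k) + C (-μ) * p := by
        rw [C_neg]; ring
      rw [e]
      refine (l1_add _ _).trans ?_
      have h2 := l1_X_pow_mul 1 (p - C Λ * X ^ k)
      have h3 := l1_C_mul (-μ) p
      rw [norm_neg] at h3
      have h4 : ‖μ‖ * l1 p ≤ ε * (‖Λ‖ * (1 + ε) ^ Multiset.card S) :=
        mul_le_mul h1 hpl (l1_nonneg _) hε.le
      rw [pow_succ (1 + ε)]
      nlinarith
    · have hμ : 0 < ‖μ‖ := by
        by_contra hc
        have : ‖μ‖ = 0 := le_antisymm (not_lt.1 hc) (norm_nonneg _)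
        rw [this, mul_zero] at h1
        linarith
      refine ⟨-μ * Λ, k, mul_ne_zero (neg_ne_zero.2 (norm_pos_iff.1 hμ)) hΛ, by omega, ?_⟩
      have e : (X - C μ) * p - C (-μ * Λ) * X ^ k =
          X ^ 1 * p + C (-μ) * (p - C Λ * X ^ k) := by
        rw [C_mul, C_neg]; ring
      rw [e]
      refine (l1_add _ _).trans ?_
      have h2 := l1_X_pow_mul 1 p
      have h3 := l1_C_mul (-μ) (p - C Λ * X ^ k)
      rw [norm_neg] at h3
      have h4 : ‖μ‖ * l1 (p - C Λ * X ^ k) ≤ ‖μ‖ * (‖Λ‖ * ((1 + ε) ^ Multiset.card S - 1)) :=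
        mul_le_mul_of_nonneg_left hl hμ.le
      have h5 : ‖Λ‖ * (1 + ε) ^ Multiset.card S ≤
          ‖Λ‖ * (1 + ε) ^ Multiset.card S * (ε * ‖μ‖) := le_mul_of_one_le_right (by positivity) h1
      rw [norm_mul, norm_neg, pow_succ (1 + ε)]
      nlinarith

theorem l1_map (p : ℤ[X]) : l1 (p.map (Int.castRingHom ℂ)) = l1 p := by
  rw [l1_eq _ (s := p.support) (support_map_subset _ _), l1]
  refine Finset.sum_congr rfl fun i _ => ?_
  rw [coeff_map, eq_intCast, Complex.norm_intCast, Int.norm_eq_abs]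

theorem lop_int (p : ℤ[X]) (hp : p.Monic) (ε : ℝ) (hε : 0 < ε)
    (h : ∀ μ ∈ (p.map (Int.castRingHom ℂ)).roots, ‖μ‖ ≤ ε ∨ 1 ≤ ε * ‖μ‖)
    (hε' : (1 + ε) ^ p.natDegree ≤ 4 / 3) :
    ∃ k ≤ p.natDegree, p.coeff k ≠ 0 ∧
      2 * l1 (C (p.coeff k) * X ^ k - p) ≤ |(p.coeff k : ℝ)| := by
  have hs : (p.map (Int.castRingHom ℂ)).Splits := IsAlgClosed.splits _
  have hm : (p.map (Int.castRingHom ℂ)).Monic := hp.map _
  have hprod := hs.eq_prod_roots_of_monic hm
  have hcard : Multiset.card (p.map (Int.castRingHom ℂ)).roots = p.natDegree := by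
    rw [← hs.natDegree_eq_card_roots, hp.natDegree_map]
  obtain ⟨Λ, k, hΛ, hk, hl⟩ := lop ε hε _ h
  rw [← hprod, hcard] at hl
  rw [hcard] at hk
  set q := p.map (Int.castRingHom ℂ) with hq
  have hΛp : 0 < ‖Λ‖ := norm_pos_iff.2 hΛ
  have h1 : l1 (q - C Λ * X ^ k) ≤ ‖Λ‖ / 3 := hl.trans (by nlinarith)
  have h2 := l1_split (q - C Λ * X ^ k) k
  have hc : (q - C Λ * X ^ k).coeff k = q.coeff k - Λ := by
    rw [coeff_sub, coeff_C_mul, coeff_X_pow, if_pos rfl, mul_one]
  rw [hc] at h2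
  have e1 : q - C Λ * X ^ k - C (q.coeff k - Λ) * X ^ k = q - C (q.coeff k) * X ^ k := by
    rw [C_sub]; ring
  rw [e1] at h2
  have hck : q.coeff k = ((p.coeff k : ℤ) : ℂ) := by rw [hq, coeff_map]; rfl
  have h3 : ‖Λ‖ ≤ ‖q.coeff k‖ + ‖q.coeff k - Λ‖ := by
    have := norm_sub_le (q.coeff k) (q.coeff k - Λ)
    rwa [sub_sub_cancel] at this
  have h4 : l1 (C (p.coeff k) * X ^ k - p) = l1 (q - C (q.coeff k) * X ^ k) := by
    have e2 : q - C (q.coeff k) * X ^ k =
        (-(C (p.coeff k) * X ^ k - p)).map (Int.castRingHom ℂ) := by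
      rw [neg_sub, Polynomial.map_sub, Polynomial.map_mul, Polynomial.map_pow, map_X, map_C, hck,
        hq, eq_intCast]
    rw [e2, l1_map]
    have e3 : ∀ P : ℤ[X], l1 (-P) = l1 P := fun P => by simp [l1]
    rw [e3]
  have h5 : ‖q.coeff k‖ = |(p.coeff k : ℝ)| := by rw [hck, Complex.norm_intCast]
  have h6 := norm_nonneg (q.coeff k - Λ)
  have h7 := l1_nonneg (q - C (q.coeff k) * X ^ k)
  refine ⟨k, hk, fun h0 => ?_, ?_⟩
  · rw [h0, Int.cast_zero, abs_zero] at h5
    linarith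
  · rw [h4, ← h5]
    linarith

/-- A power of a hyperbolic matrix has a lopsided annihilating polynomial. -/
theorem exists_lop {n : ℕ} (M : Matrix (Fin n) (Fin n) ℤ)
    (hM : ∀ l : ℂ, (M.map (Int.cast : ℤ → ℂ)).charpoly.IsRoot l → ‖l‖ ≠ 1) :
    ∃ (N k : ℕ) (a : ℤ) (b : ℤ[X]), a ≠ 0 ∧ k ≤ n ∧ b.natDegree ≤ n ∧ 2 * l1 b ≤ |(a : ℝ)| ∧
      aeval (M ^ N) b = a • (M ^ N) ^ k := by
  obtain ⟨ε, hε, hε'⟩ : ∃ ε : ℝ, 0 < ε ∧ (1 + ε) ^ n ≤ 4 / 3 := by
    have h1 : Filter.Tendsto (fun ε : ℝ => (1 + ε) ^ n) (nhdsWithin 0 (Set.Ioi 0)) (nhds ((1 + 0) ^ n)) :=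
      (Continuous.tendsto (by fun_prop) 0).mono_left nhdsWithin_le_nhds
    have h2 : ∀ᶠ ε : ℝ in nhdsWithin 0 (Set.Ioi 0), (1 + ε) ^ n < 4 / 3 :=
      h1.eventually (gt_mem_nhds (by norm_num))
    obtain ⟨ε, h3, h4⟩ := (h2.and self_mem_nhdsWithin).exists
    exact ⟨ε, h4, h3.le⟩
  let A : Matrix (Fin n) (Fin n) ℂ := M.map (Int.cast : ℤ → ℂ)
  have hfin : ∀ᶠ N : ℕ in Filter.atTop, ∀ l ∈ A.charpoly.roots.toFinset,
      ‖l‖ ^ N ≤ ε ∨ 1 ≤ ε * ‖l‖ ^ N := by
    rw [Filter.eventually_all_finset]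
    intro l hl
    have hl1 : ‖l‖ ≠ 1 := hM l ((mem_roots'.1 (Multiset.mem_toFinset.1 hl)).2)
    rcases lt_or_gt_of_ne hl1 with h | h
    · have := tendsto_pow_atTop_nhds_zero_of_lt_one (norm_nonneg l) h
      exact (this.eventually (gt_mem_nhds hε)).mono fun N hN => Or.inl hN.le
    · have := tendsto_pow_atTop_atTop_of_one_lt h
      refine (this.eventually (Filter.eventually_ge_atTop (1 / ε))).mono fun N hN => Or.inr ?_
      rw [div_le_iff₀ hε] at hN
      linarith
  obtain ⟨N, hN, hN1⟩ := (hfin.and (Filter.eventually_ge_atTop 1)).exists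
  let S := M ^ N
  have hSA : S.map (Int.cast : ℤ → ℂ) = A ^ N := by
    have := map_pow (Int.castRingHom ℂ).mapMatrix M N
    exact this
  have hmap : S.charpoly.map (Int.castRingHom ℂ) = (A ^ N).charpoly := by
    rw [← hSA]
    exact (Matrix.charpoly_map S (Int.castRingHom ℂ)).symm
  have hdeg : S.charpoly.natDegree = n := by
    rw [Matrix.charpoly_natDegree_eq_dim, Fintype.card_fin]
  obtain ⟨k, hk, hk0, hk1⟩ := lop_int S.charpoly (Matrix.charpoly_monic S) ε hε (by
    intro μ hμ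
    rw [hmap] at hμ
    have h1 : μ ∈ spectrum ℂ (A ^ N) :=
      Matrix.mem_spectrum_iff_isRoot_charpoly.2 (mem_roots'.1 hμ).2
    rw [spectrum.map_pow_of_pos A (by omega)] at h1
    obtain ⟨l, hl, rfl⟩ := h1
    have h2 := Matrix.mem_spectrum_iff_isRoot_charpoly.1 hl
    have h3 := hN l (Multiset.mem_toFinset.2 (mem_roots'.2 ⟨(Matrix.charpoly_monic A).ne_zero, h2⟩))
    simpa [norm_pow] using h3) (by rw [hdeg]; exact hε')
  refine ⟨N, k, S.charpoly.coeff k, C (S.charpoly.coeff k) * X ^ k - S.charpoly, hk0,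
    hk.trans hdeg.le, ?_, hk1, ?_⟩
  · refine (natDegree_sub_le _ _).trans (max_le ((natDegree_C_mul_X_pow_le _ _).trans
      (hk.trans hdeg.le)) hdeg.le)
  · have := Matrix.aeval_self_charpoly S
    rw [map_sub, this, sub_zero, map_mul, aeval_C, map_pow, aeval_X, Algebra.algebraMap_eq_smul_one,
      smul_mul_assoc, one_mul]

theorem digits {n : ℕ} (S : Matrix (Fin n) (Fin n) ℤ) (k : ℕ) (a : ℤ) (b : ℤ[X]) (ha : a ≠ 0)
    (hk : k ≤ n) (hb : b.natDegree ≤ n) (hl : 2 * l1 b ≤ |(a : ℝ)|) (he : aeval S b = a • S ^ k)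
    (z : ℤ) (m : ℕ) :
    ∃ P : ℤ[X], P.natDegree ≤ n * m ∧ aeval S P = z • S ^ (k * m) ∧
      l1 P ≤ |(z : ℝ)| / 2 ^ m + 2 * |(a : ℝ)| * (n * m + 1) := by
  have ha' : 0 < |(a : ℝ)| := abs_pos.2 (Int.cast_ne_zero.2 ha)
  induction m with
  | zero =>
    refine ⟨C z, by simp, ?_, ?_⟩
    · rw [aeval_C, Algebra.algebraMap_eq_smul_one, mul_zero, pow_zero]
    · have := l1_C_le z
      rw [Int.norm_eq_abs] at this
      simp only [pow_zero, div_one, Nat.cast_zero, mul_zero, zero_add, mul_one]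
      linarith
  | succ m ih =>
    obtain ⟨P, hP1, hP2, hP3⟩ := ih
    let Q : ℤ[X] := ∑ i ∈ Finset.range (n * m + 1), C ((P.coeff i).tdiv a) * X ^ i
    let R : ℤ[X] := ∑ i ∈ Finset.range (n * m + 1), C ((P.coeff i).tmod a) * X ^ i
    have hQR : C a * Q + R = P := by
      have h1 := P.as_sum_range_C_mul_X_pow' (n := n * m + 1) (by omega)
      conv_rhs => rw [h1]
      simp only [Q, R, Finset.mul_sum, ← Finset.sum_add_distrib]
      refine Finset.sum_congr rfl fun i _ => ?_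
      rw [← mul_assoc, ← C_mul, ← add_mul, ← C_add, Int.mul_tdiv_add_tmod]
    have hQd : Q.natDegree ≤ n * m := natDegree_sum_le_of_forall_le _ _ fun i hi =>
      (natDegree_C_mul_X_pow_le _ _).trans (by rw [Finset.mem_range] at hi; omega)
    have hRd : R.natDegree ≤ n * m := natDegree_sum_le_of_forall_le _ _ fun i hi =>
      (natDegree_C_mul_X_pow_le _ _).trans (by rw [Finset.mem_range] at hi; omega)
    have hPl : l1 P = ∑ i ∈ Finset.range (n * m + 1), ‖P.coeff i‖ :=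
      l1_eq P (supp_subset_range (by omega))
    have hQl : |(a : ℝ)| * l1 Q ≤ l1 P := by
      refine (mul_le_mul_of_nonneg_left (l1_sum _ _) ha'.le).trans ?_
      rw [hPl, Finset.mul_sum]
      refine Finset.sum_le_sum fun i _ => ?_
      refine (mul_le_mul_of_nonneg_left (l1_mono _ _) ha'.le).trans ?_
      rw [Int.norm_eq_abs, Int.norm_eq_abs, ← Int.cast_abs, ← Int.cast_abs, ← Int.cast_abs,
        ← Int.cast_mul, Int.cast_le, Int.abs_eq_natAbs, Int.abs_eq_natAbs, Int.abs_eq_natAbs,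
        Int.natAbs_tdiv]
      exact_mod_cast Nat.mul_div_le _ _
    have hRl : l1 R ≤ (n * m + 1) * |(a : ℝ)| := by
      refine (l1_sum _ _).trans ?_
      refine (Finset.sum_le_sum (g := fun _ => |(a : ℝ)|) fun i _ => ?_).trans ?_
      · refine (l1_mono _ _).trans ?_
        rw [Int.norm_eq_abs, ← Int.cast_abs, ← Int.cast_abs, Int.cast_le, Int.abs_eq_natAbs,
          Int.abs_eq_natAbs, Int.natAbs_tmod]
        exact_mod_cast (Nat.mod_lt _ (Int.natAbs_pos.2 ha)).le
      · rw [Finset.sum_const, Finset.card_range, nsmul_eq_mul]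
        push_cast
        exact le_rfl
    refine ⟨Q * b + X ^ k * R, ?_, ?_, ?_⟩
    · refine (natDegree_add_le _ _).trans (max_le ?_ ?_)
      · refine natDegree_mul_le.trans ?_
        rw [mul_add, mul_one]
        omega
      · refine natDegree_mul_le.trans ?_
        rw [natDegree_X_pow, mul_add, mul_one]
        omega
    · have h1 : aeval S (C a * Q + R) = a • aeval S Q + aeval S R := by
        rw [map_add, map_mul, aeval_C, Algebra.algebraMap_eq_smul_one, smul_mul_assoc, one_mul]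
      rw [hQR, hP2] at h1
      rw [mul_comm Q b, map_add, map_mul, map_mul, he, map_pow, aeval_X, smul_mul_assoc,
        ← mul_smul_comm, ← mul_add, ← h1, mul_smul_comm, ← pow_add]
      congr 2
      ring
    · refine (l1_add _ _).trans ?_
      have h1 := l1_mul Q b
      have h2 := l1_X_pow_mul k R
      have h3 : 2 * (l1 Q * l1 b) ≤ l1 P := by
        have := mul_le_mul_of_nonneg_left hl (l1_nonneg Q)
        nlinarith
      have h4 : |(z : ℝ)| / 2 ^ (m + 1) = |(z : ℝ)| / 2 ^ m / 2 := by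
        rw [pow_succ, div_div]
      rw [h4]
      push_cast
      have h5 : (0 : ℝ) ≤ |(a : ℝ)| * n := by positivity
      nlinarith

/-! ### Words and lengths -/

section gen

variable {G ι : Type*} [Group G] (x : ι → G)

/-- The element represented by a word. -/
def ev (w : List (ι × Bool)) : G := (w.map fun s => if s.2 then x s.1 else (x s.1)⁻¹).prod

theorem ev_append (v w : List (ι × Bool)) : ev x (v ++ w) = ev x v * ev x w := by
  simp [ev]

def Len (g : G) (n : ℕ) : Prop := ∃ w, ev x w = g ∧ w.length ≤ n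

variable {x}

theorem Len.mono {g : G} {n m : ℕ} (h : Len x g n) (hnm : n ≤ m) : Len x g m := by
  obtain ⟨w, h1, h2⟩ := h
  exact ⟨w, h1, h2.trans hnm⟩

theorem Len.mul {g h : G} {n m : ℕ} (h1 : Len x g n) (h2 : Len x h m) :
    Len x (g * h) (n + m) := by
  obtain ⟨v, rfl, hv⟩ := h1
  obtain ⟨w, rfl, hw⟩ := h2
  exact ⟨v ++ w, ev_append x v w, by simp; omega⟩

theorem Len.one : Len x (1 : G) 0 := ⟨[], by simp [ev], by simp⟩

variable (x) in
theorem ev_inv (w : List (ι × Bool)) :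
    ev x ((w.map fun s => (s.1, !s.2)).reverse) = (ev x w)⁻¹ := by
  induction w with
  | nil => simp [ev]
  | cons s w ih =>
    rw [List.map_cons, List.reverse_cons, ev_append, ih]
    rcases s with ⟨i, _ | _⟩ <;> simp [ev]

theorem Len.inv {g : G} {n : ℕ} (h : Len x g n) : Len x g⁻¹ n := by
  obtain ⟨w, rfl, hw⟩ := h
  exact ⟨_, ev_inv x w, by simpa using hw⟩

theorem Len.pow {g : G} {n : ℕ} (h : Len x g n) (d : ℕ) : Len x (g ^ d) (d * n) := by
  induction d with
  | zero => rw [pow_zero, zero_mul]; exact Len.one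
  | succ d ih => rw [pow_succ, Nat.succ_mul]; exact ih.mul h

def pw (i : ι) (z : ℤ) : List (ι × Bool) := List.replicate z.natAbs (i, decide (0 ≤ z))

variable (x) in
theorem ev_pw (i : ι) (z : ℤ) : ev x (pw i z) = x i ^ z := by
  unfold ev pw
  rw [List.map_replicate, List.prod_replicate]
  by_cases hz : 0 ≤ z
  · simp only [hz, decide_true, if_true]
    rw [← zpow_natCast, Int.natAbs_of_nonneg hz]
  · simp only [hz, decide_false, Bool.false_eq_true, if_false]
    rw [← zpow_natCast, inv_zpow', Int.ofNat_natAbs_of_nonpos (by omega), neg_neg]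

theorem len_zpow (i : ι) (z : ℤ) : Len x (x i ^ z) z.natAbs :=
  ⟨pw i z, ev_pw x i z, by simp [pw]⟩

def tr (z : ℤ) (s : ℕ) : ℤ := if 0 ≤ z then min z s else max z (-s)

omit [Group G] in
theorem take_pw (i : ι) (z : ℤ) (s : ℕ) : (pw i z).take s = pw i (tr z s) := by
  unfold pw tr
  rw [List.take_replicate]
  by_cases hz : 0 ≤ z
  · simp only [hz, if_true, decide_true]
    have h1 : 0 ≤ min z (s : ℤ) := by omega
    simp only [h1, decide_true]
    congr 1; omega
  · simp only [hz, if_false, decide_false]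
    by_cases hs : s = 0
    · subst hs
      have : max z (-((0 : ℕ) : ℤ)) = 0 := by omega
      rw [this]; simp
    · have h1 : ¬ 0 ≤ max z (-(s : ℤ)) := by omega
      simp only [h1, decide_false]
      congr 1; omega

theorem tr_le (z : ℤ) (s : ℕ) : (tr z s).natAbs ≤ s := by
  unfold tr; split_ifs <;> omega

theorem tr_sub (z z' : ℤ) (s : ℕ) : (tr z s - tr z' s).natAbs ≤ (z - z').natAbs := by
  unfold tr; split_ifs <;> omega

end gen

/-! ### Exponential distortion -/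

section distort

open Multiplicative

variable {G ι : Type*} [Group G] {x : ι → G} {n : ℕ} {j : Multiplicative (Fin n → ℤ) →* G}
  {S : Matrix (Fin n) (Fin n) ℤ} {s : G} {ls : ℕ}

theorem conj_pow (hS : ∀ v, j (ofAdd (S.mulVec v)) = s * j (ofAdd v) * s⁻¹) (d : ℕ)
    (v : Fin n → ℤ) : j (ofAdd ((S ^ d).mulVec v)) = s ^ d * j (ofAdd v) * (s ^ d)⁻¹ := by
  induction d generalizing v with
  | zero => simp
  | succ d ih =>
    rw [pow_succ, ← Matrix.mulVec_mulVec, ih, hS, pow_succ s]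
    group

theorem horner (hs : Len x s ls) (hS : ∀ v, j (ofAdd (S.mulVec v)) = s * j (ofAdd v) * s⁻¹)
    (i : ι) (e : Fin n → ℤ) (he : x i = j (ofAdd e)) (c : ℕ → ℤ) (d : ℕ) :
    Len x (j (ofAdd (∑ k ∈ Finset.range d, c k • (S ^ k).mulVec e)) * s ^ d)
      (∑ k ∈ Finset.range d, (c k).natAbs + d * ls) := by
  induction d with
  | zero => simpa using Len.one
  | succ d ih =>
    have h1 := (ih.mul (len_zpow (x := x) i (c d))).mul hs
    have h2 : j (ofAdd (c d • (S ^ d).mulVec e)) = s ^ d * x i ^ c d * (s ^ d)⁻¹ := by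
      rw [← Matrix.mulVec_smul, conj_pow hS, he, ← map_zpow, ← ofAdd_zsmul]
    rw [Finset.sum_range_succ, Finset.sum_range_succ, ofAdd_add, map_mul, h2]
    have e1 : j (ofAdd (∑ k ∈ Finset.range d, c k • (S ^ k).mulVec e)) *
        (s ^ d * x i ^ c d * (s ^ d)⁻¹) * s ^ (d + 1) =
        j (ofAdd (∑ k ∈ Finset.range d, c k • (S ^ k).mulVec e)) * s ^ d * x i ^ c d * s := by
      rw [pow_succ]; group
    rw [e1]
    exact h1.mono (le_of_eq (by ring))

theorem distort (hs : Len x s ls) (hS : ∀ v, j (ofAdd (S.mulVec v)) = s * j (ofAdd v) * s⁻¹)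
    (k : ℕ) (a : ℤ) (b : ℤ[X]) (ha : a ≠ 0)
    (hk : k ≤ n) (hb : b.natDegree ≤ n) (hl : 2 * l1 b ≤ |(a : ℝ)|) (he : aeval S b = a • S ^ k)
    (i : ι) (e : Fin n → ℤ) (hi : x i = j (ofAdd e)) (z : ℤ) (M : ℕ) (hz : z.natAbs ≤ M) :
    Len x (x i ^ z) ((1 + 2 * a.natAbs * (n + 1) + ls * (4 * n + 2)) * (Nat.log 2 M + 1)) := by
  set m := Nat.log 2 M + 1 with hm
  obtain ⟨P, hP1, hP2, hP3⟩ := digits S k a b ha hk hb hl he z m
  have h1 := horner hs hS i e hi P.coeff (n * m + 1)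
  have h2 : ∑ t ∈ Finset.range (n * m + 1), P.coeff t • (S ^ t).mulVec e =
      z • (S ^ (k * m)).mulVec e := by
    rw [← Matrix.smul_mulVec, ← hP2, aeval_eq_sum_range' (by omega : P.natDegree < n * m + 1),
      Matrix.sum_mulVec]
    exact Finset.sum_congr rfl fun t _ => (Matrix.smul_mulVec _ _ _).symm
  rw [h2] at h1
  have h3 : j (ofAdd (z • (S ^ (k * m)).mulVec e)) =
      s ^ (k * m) * x i ^ z * (s ^ (k * m))⁻¹ := by
    rw [← Matrix.mulVec_smul, conj_pow hS, hi, ← map_zpow, ← ofAdd_zsmul]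
  rw [h3] at h1
  have h4 := (((hs.pow (k * m)).inv.mul h1).mul (hs.pow (n * m + 1)).inv).mul (hs.pow (k * m))
  have h5 : (s ^ (k * m))⁻¹ * (s ^ (k * m) * x i ^ z * (s ^ (k * m))⁻¹ * s ^ (n * m + 1)) *
      (s ^ (n * m + 1))⁻¹ * s ^ (k * m) = x i ^ z := by group
  rw [h5] at h4
  refine h4.mono ?_
  have h6 : ∑ t ∈ Finset.range (n * m + 1), (P.coeff t).natAbs ≤
      1 + 2 * a.natAbs * (n * m + 1) := by
    have e1 : l1 P = ∑ t ∈ Finset.range (n * m + 1), ‖P.coeff t‖ :=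
      l1_eq P (supp_subset_range (by omega))
    have e2 : ∀ t : ℤ, ‖t‖ = ((t.natAbs : ℕ) : ℝ) := fun t => by
      rw [Int.norm_eq_abs, Nat.cast_natAbs, Int.cast_abs]
    simp only [e2] at e1
    have e3 : |(z : ℝ)| / 2 ^ m ≤ 1 := by
      rw [div_le_one (by positivity)]
      have h7 := Nat.lt_pow_succ_log_self (b := 2) (by norm_num) M
      have h8 : |(z : ℝ)| = ((z.natAbs : ℕ) : ℝ) := by rw [← e2, Int.norm_eq_abs]
      rw [h8]
      exact_mod_cast (hz.trans h7.le)
    have e4 : |(a : ℝ)| = ((a.natAbs : ℕ) : ℝ) := by rw [← e2, Int.norm_eq_abs]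
    rw [e4, e1] at hP3
    have e5 : ((∑ t ∈ Finset.range (n * m + 1), (P.coeff t).natAbs : ℕ) : ℝ) ≤
        ((1 + 2 * a.natAbs * (n * m + 1) : ℕ) : ℝ) := by
      push_cast
      linarith
    exact_mod_cast e5
  have hm1 : 1 ≤ m := by omega
  have h7 : k * m ≤ n * m := Nat.mul_le_mul_right m hk
  have h8 : k * m * ls ≤ n * m * ls := Nat.mul_le_mul_right ls h7
  have h9 : ls ≤ m * ls := Nat.le_mul_of_pos_left ls (by omega)
  have h10 : a.natAbs ≤ m * a.natAbs := Nat.le_mul_of_pos_left _ (by omega)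
  nlinarith

end distort

/-! ### The normal form -/

section nf

open Multiplicative SemidirectProduct

/-- `v ↦ M v` on `ℤ^n`, written multiplicatively. -/
def mv {n : ℕ} (M : Matrix (Fin n) (Fin n) ℤ) (v : Multiplicative (Fin n → ℤ)) :
    Multiplicative (Fin n → ℤ) := ofAdd (M.mulVec (toAdd v))

theorem mv_mv {n : ℕ} (M N : Matrix (Fin n) (Fin n) ℤ) (v : Multiplicative (Fin n → ℤ)) :
    mv M (mv N v) = mv (M * N) v := by
  change ofAdd (M.mulVec (N.mulVec (toAdd v))) = _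
  rw [Matrix.mulVec_mulVec]
  rfl

theorem mv_one {n : ℕ} (v : Multiplicative (Fin n → ℤ)) : mv 1 v = v := by
  change ofAdd (Matrix.mulVec 1 (toAdd v)) = v
  rw [Matrix.one_mulVec]
  rfl

theorem mv_mul {n : ℕ} (M : Matrix (Fin n) (Fin n) ℤ) (v w : Multiplicative (Fin n → ℤ)) :
    mv M (v * w) = mv M v * mv M w := by
  change ofAdd (Matrix.mulVec _ (toAdd v + toAdd w)) = _
  rw [Matrix.mulVec_add]
  rfl

theorem mv_inv_mv {n : ℕ} (M : GL (Fin n) ℤ) (v : Multiplicative (Fin n → ℤ)) :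
    mv (M⁻¹ : GL (Fin n) ℤ) (mv M v) = v := by
  rw [mv_mv, ← Units.val_mul, inv_mul_cancel, Units.val_one, mv_one]

theorem mv_mv_inv {n : ℕ} (M : GL (Fin n) ℤ) (v : Multiplicative (Fin n → ℤ)) :
    mv M (mv (M⁻¹ : GL (Fin n) ℤ) v) = v := by
  rw [mv_mv, ← Units.val_mul, mul_inv_cancel, Units.val_one, mv_one]

/-- `v ↦ M v` as an automorphism. -/
def mvAut {n : ℕ} (M : GL (Fin n) ℤ) : MulAut (Multiplicative (Fin n → ℤ)) where
  toFun := mv M
  invFun := mv (M⁻¹ : GL (Fin n) ℤ)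
  left_inv := mv_inv_mv M
  right_inv := mv_mv_inv M
  map_mul' := mv_mul _

theorem mvAut_one (n : ℕ) : mvAut (1 : GL (Fin n) ℤ) = 1 := by
  ext v : 1
  exact mv_one v

theorem mvAut_mul {n : ℕ} (M N : GL (Fin n) ℤ) : mvAut (M * N) = mvAut M * mvAut N := by
  ext v : 1
  exact (mv_mv _ _ v).symm

/-- The action of `GL(n, ℤ)` on `ℤ^n`. -/
def glAct (n : ℕ) : GL (Fin n) ℤ →* MulAut (Multiplicative (Fin n → ℤ)) where
  toFun := mvAut
  map_one' := mvAut_one n
  map_mul' := mvAut_mul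

/-- The group `ℤ^n ⋊ Q` of a homomorphism `φ : Q → GL(n, ℤ)`. -/
abbrev Ext {n : ℕ} {Q : Type} [Group Q] (φ : Q →* GL (Fin n) ℤ) : Type :=
  Multiplicative (Fin n → ℤ) ⋊[(glAct n).comp φ] Q

/-- The `i`-th vector of the standard basis of `ℤ^n`. -/
def vec {n : ℕ} (i : Fin n) : Multiplicative (Fin n → ℤ) := ofAdd fun t => if t = i then 1 else 0

/-- The generators: the standard basis of `ℤ^n` and the generators `Y` of `Q`. -/
def gens {n : ℕ} {Q κ : Type} [Group Q] (φ : Q →* GL (Fin n) ℤ) (Y : κ → Q) :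
    Fin n ⊕ κ → Ext φ
  | Sum.inl i => ⟨vec i, 1⟩
  | Sum.inr k => ⟨1, Y k⟩

theorem gens_inl {n : ℕ} {Q κ : Type} [Group Q] (φ : Q →* GL (Fin n) ℤ) (Y : κ → Q) (i : Fin n) :
    gens φ Y (Sum.inl i) = inl (ofAdd (Pi.single i 1)) := by
  have h : vec i = ofAdd (Pi.single i 1 : Fin n → ℤ) := by
    unfold vec
    congr 1
    funext t
    rw [Pi.single_apply]
  change (⟨vec i, 1⟩ : Ext φ) = ⟨ofAdd (Pi.single i 1), 1⟩
  rw [h]

theorem gens_inr {n : ℕ} {Q κ : Type} [Group Q] (φ : Q →* GL (Fin n) ℤ) (Y : κ → Q) (k : κ) :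
    gens φ Y (Sum.inr k) = inr (Y k) := rfl

/-- A normal form: every element is represented by exactly one word of `L`. -/
def IsNormalForm {G ι : Type} [Group G] (x : ι → G) (L : Set (List (ι × Bool))) : Prop :=
  Set.BijOn (ev x) L Set.univ

/-- Every prefix of a word of `L` can be completed to a word of `L` by at most `c` letters. -/
def Quasiregular {ι : Type} (L : Set (List (ι × Bool))) (c : ℕ) : Prop :=
  ∀ w ∈ L, ∀ u, u <+: w → ∃ v : List (ι × Bool), v.length ≤ c ∧ u ++ v ∈ L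

/-- `s_L(m) ≤ F m` for all `m`. -/
def FellowTravel {G ι : Type} [Group G] (x : ι → G) (L : Set (List (ι × Bool))) (F : ℕ → ℕ) :
    Prop :=
  ∀ m : ℕ, ∀ w₁ ∈ L, ∀ w₂ ∈ L, ∀ i : ι, ev x w₁ * x i = ev x w₂ → ∀ t ≤ m,
    ∃ w : List (ι × Bool), ev x (w₁.take t) * ev x w = ev x (w₂.take t) ∧ w.length ≤ F m

/-- No complex eigenvalue has absolute value `1`. -/
def Hyperbolic {n : ℕ} (M : GL (Fin n) ℤ) : Prop :=
  ∀ l : ℂ, ((M : Matrix (Fin n) (Fin n) ℤ).map (Int.cast : ℤ → ℂ)).charpoly.IsRoot l → ‖l‖ ≠ 1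

variable {n : ℕ} {Q κ : Type} [Group Q] (φ : Q →* GL (Fin n) ℤ) (Y : κ → Q)

def lift (n : ℕ) (u : List (κ × Bool)) : List ((Fin n ⊕ κ) × Bool) :=
  u.map fun s => (Sum.inr s.1, s.2)

theorem ev_lift (u : List (κ × Bool)) : ev (gens φ Y) (lift n u) = inr (ev Y u) := by
  induction u with
  | nil => simp [ev, lift]
  | cons s u ih =>
    have h1 : ev (gens φ Y) (lift n (s :: u)) =
        (if s.2 then gens φ Y (Sum.inr s.1) else (gens φ Y (Sum.inr s.1))⁻¹) *
          ev (gens φ Y) (lift n u) := by simp [ev, lift]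
    have h2 : ev Y (s :: u) = (if s.2 then Y s.1 else (Y s.1)⁻¹) * ev Y u := by simp [ev]
    rw [h1, h2, ih, map_mul]
    congr 1
    split_ifs
    · rfl
    · exact (map_inv inr (Y s.1)).symm

/-- The word `e_{i_1}^{a_{i_1}} e_{i_2}^{a_{i_2}} ⋯`. -/
def alW (κ : Type) (l : List (Fin n)) (a : Fin n → ℤ) : List ((Fin n ⊕ κ) × Bool) :=
  l.flatMap fun i => pw (Sum.inl i) (a i)

theorem ev_alW (l : List (Fin n)) (a : Fin n → ℤ) : ev (gens φ Y) (alW κ l a) =
    inl (ofAdd (l.map fun i => a i • (Pi.single i 1 : Fin n → ℤ)).sum) := by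
  induction l with
  | nil => simp [ev, alW]
  | cons i l ih =>
    have h : alW κ (i :: l) a = pw (Sum.inl i) (a i) ++ alW κ l a := by simp [alW]
    rw [h, ev_append, ih, ev_pw, List.map_cons, List.sum_cons, ofAdd_add, map_mul, ofAdd_zsmul,
      map_zpow, gens_inl]

theorem ev_al (a : Fin n → ℤ) :
    ev (gens φ Y) (alW κ (List.finRange n) a) = inl (ofAdd a) := by
  rw [ev_alW, ← Fin.sum_univ_def]
  congr 2
  ext t
  simp [Finset.sum_apply, Pi.single_apply]

theorem take_alW (l : List (Fin n)) (hl : l.Nodup) (a : Fin n → ℤ) (s : ℕ) :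
    ∃ a' : Fin n → ℤ, (∀ i, (a' i).natAbs ≤ s) ∧ (alW κ l a).take s = alW κ l a' := by
  induction l generalizing s with
  | nil => exact ⟨0, fun _ => by simp, by simp [alW]⟩
  | cons i l ih =>
    rw [List.nodup_cons] at hl
    have h : ∀ b : Fin n → ℤ, alW κ (i :: l) b = pw (Sum.inl i) (b i) ++ alW κ l b := fun b => by
      simp [alW]
    obtain ⟨a', h1, h2⟩ := ih hl.2 (s - (pw (Sum.inl i : Fin n ⊕ κ) (a i)).length)
    refine ⟨Function.update a' i (tr (a i) s), fun t => ?_, ?_⟩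
    · by_cases ht : t = i
      · subst ht
        rw [Function.update_self]
        exact tr_le _ _
      · rw [Function.update_of_ne ht]
        exact (h1 t).trans (Nat.sub_le _ _)
    · rw [h, h, List.take_append, take_pw, h2, Function.update_self]
      congr 1
      unfold alW
      refine List.flatMap_congr fun t ht => ?_
      have hti : t ≠ i := by
        rintro rfl
        exact hl.1 ht
      rw [Function.update_of_ne hti]

theorem len_alW {C B : ℕ} (hC : ∀ (i : Fin n) (z : ℤ), z.natAbs ≤ B →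
      Len (gens φ Y) (gens φ Y (Sum.inl i) ^ z) C) (l : List (Fin n)) (a : Fin n → ℤ)
    (ha : ∀ i, (a i).natAbs ≤ B) : Len (gens φ Y) (ev (gens φ Y) (alW κ l a)) (l.length * C) := by
  induction l with
  | nil => simpa [alW, ev] using (Len.one : Len (gens φ Y) 1 0)
  | cons i l ih =>
    have h : alW κ (i :: l) a = pw (Sum.inl i) (a i) ++ alW κ l a := by simp [alW]
    rw [h, ev_append, ev_pw, List.length_cons, Nat.succ_mul, add_comm]
    exact (hC i (a i) (ha i)).mul ih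

theorem main (L : Set (List (κ × Bool))) (c : ℕ) (F : ℕ → ℕ) (q : Q)
    (h1 : IsNormalForm Y L) (h2 : Quasiregular L c) (h3 : FellowTravel Y L F)
    (h4 : Hyperbolic (φ q)) :
    ∃ (L' : Set (List ((Fin n ⊕ κ) × Bool))) (C : ℕ), IsNormalForm (gens φ Y) L' ∧
      Quasiregular L' c ∧
      FellowTravel (gens φ Y) L' (fun m => F m + C * (Nat.log 2 m + 1)) := by
  obtain ⟨N, k, a, b, ha, hk, hb, hl, he⟩ := exists_lop _ h4
  set S : Matrix (Fin n) (Fin n) ℤ := ((φ q : GL (Fin n) ℤ) : Matrix (Fin n) (Fin n) ℤ) ^ N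
    with hS
  obtain ⟨ws, -, hws⟩ := h1.surjOn (Set.mem_univ (q ^ N))
  have hs : Len (gens φ Y) (inr (q ^ N) : Ext φ) ws.length :=
    ⟨lift n ws, by rw [ev_lift, hws], by simp [lift]⟩
  have hconj : ∀ v : Fin n → ℤ, (inl (ofAdd (S.mulVec v)) : Ext φ) =
      inr (q ^ N) * inl (ofAdd v) * (inr (q ^ N))⁻¹ := by
    intro v
    rw [← map_inv, ← inl_aut]
    congr 1
    have e1 : ((glAct n).comp φ) (q ^ N) (ofAdd v) =
        ofAdd (((φ (q ^ N) : GL (Fin n) ℤ) : Matrix (Fin n) (Fin n) ℤ).mulVec v) := rfl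
    rw [e1, map_pow, Units.val_pow_eq_pow_val]
  obtain ⟨C₀, hC₀⟩ : ∃ C₀ : ℕ, ∀ (i : Fin n) (z : ℤ) (B : ℕ), z.natAbs ≤ B →
      Len (gens φ Y) (gens φ Y (Sum.inl i) ^ z) (C₀ * (Nat.log 2 B + 1)) :=
    ⟨_, fun i z B hz => distort (j := (inl : _ →* Ext φ)) hs hconj k a b ha hk hb hl he
      (Sum.inl i) (Pi.single i 1) (gens_inl φ Y i) z B hz⟩
  let al : (Fin n → ℤ) → List ((Fin n ⊕ κ) × Bool) := alW κ (List.finRange n)
  have hal : ∀ a, ev (gens φ Y) (al a) = inl (ofAdd a) := ev_al φ Y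
  have al0 : al 0 = [] := by simp [al, alW, pw]
  have hev : ∀ u a, ev (gens φ Y) (lift n u ++ al a) = inr (ev Y u) * inl (ofAdd a) := fun u a => by
    rw [ev_append, ev_lift, hal]
  have hlen : ∀ (a : Fin n → ℤ) (B : ℕ), (∀ i, (a i).natAbs ≤ B) →
      Len (gens φ Y) (inl (ofAdd a) : Ext φ) (n * (C₀ * (Nat.log 2 B + 1))) := by
    intro a B hB
    have := len_alW φ Y (fun i z hz => hC₀ i z B hz) (List.finRange n) a hB
    rw [List.length_finRange] at this
    rw [← hal a]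
    exact this
  have htake : ∀ u a t, ∃ a' : Fin n → ℤ, (∀ i, (a' i).natAbs ≤ t) ∧
      (lift n u ++ al a).take t = lift n (u.take t) ++ al a' := by
    intro u a t
    obtain ⟨a', e1, e2⟩ := take_alW (κ := κ) (List.finRange n) (List.nodup_finRange n) a
      (t - (lift n u).length)
    refine ⟨a', fun i => (e1 i).trans (Nat.sub_le _ _), ?_⟩
    rw [List.take_append, e2]
    congr 1
    exact List.map_take.symm
  refine ⟨{w | ∃ u ∈ L, ∃ a, w = lift n u ++ al a}, 2 * n * C₀, ⟨fun _ _ => trivial, ?_, ?_⟩,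
    ?_, ?_⟩
  · rintro _ ⟨u, hu, a, rfl⟩ _ ⟨u', hu', a', rfl⟩ h
    rw [hev, hev] at h
    have e1 : ev Y u = ev Y u' := by simpa using congrArg rightHom h
    have e2 := h1.injOn hu hu' e1
    subst e2
    have e3 := ofAdd.injective (inl_injective (mul_left_cancel h))
    rw [e3]
  · intro g _
    obtain ⟨u, hu, hug⟩ := h1.surjOn (Set.mem_univ g.right)
    let v : Fin n → ℤ := toAdd ((((glAct n).comp φ) g.right)⁻¹ g.left)
    refine ⟨lift n u ++ al v, ⟨u, hu, v, rfl⟩, ?_⟩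
    rw [hev, hug]
    ext <;> simp [v]
  · rintro _ ⟨u, hu, a, rfl⟩ p hp
    obtain ⟨a', e1, e2⟩ := htake u a p.length
    rw [List.prefix_iff_eq_take.1 hp]
    by_cases hup : p.length ≤ (lift n u).length
    · have e3 : (lift n u ++ al a).take p.length = lift n (u.take p.length) := by
        rw [List.take_append_of_le_length hup]
        exact List.map_take.symm
      obtain ⟨v, hv, hv'⟩ := h2 u hu (u.take p.length) (List.take_prefix _ _)
      refine ⟨lift n v, by simpa [lift] using hv, u.take p.length ++ v, hv', 0, ?_⟩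
      rw [e3, al0, List.append_nil]
      simp [lift]
    · have e4 : u.take p.length = u := List.take_of_length_le (by
        simp only [lift, List.length_map] at hup; omega)
      rw [e4] at e2
      exact ⟨[], by simp, u, hu, a', by rw [List.append_nil, e2]⟩
  · rintro m _ ⟨u₁, hu₁, a₁, rfl⟩ _ ⟨u₂, hu₂, a₂, rfl⟩ i h t ht
    have key : ∃ w : List (κ × Bool), ev Y (u₁.take t) * ev Y w = ev Y (u₂.take t) ∧
        w.length ≤ F m := by
      rw [hev, hev] at h
      have e1 := congrArg rightHom h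
      rcases i with i | i
      · have e2 : ev Y u₁ = ev Y u₂ := by simpa [gens_inl] using e1
        have e3 := h1.injOn hu₁ hu₂ e2
        subst e3
        exact ⟨[], by simp [ev], by simp⟩
      · have e2 : ev Y u₁ * Y i = ev Y u₂ := by simpa [gens_inr] using e1
        exact h3 m u₁ hu₁ u₂ hu₂ i e2 t ht
    obtain ⟨w, hw, hw'⟩ := key
    obtain ⟨b₁, e1, e2⟩ := htake u₁ a₁ t
    obtain ⟨b₂, e3, e4⟩ := htake u₂ a₂ t
    have l1 := (hlen b₁ m fun i => (e1 i).trans ht).inv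
    have l2 : Len (gens φ Y) (inr (ev Y w) : Ext φ) (F m) :=
      ⟨lift n w, ev_lift φ Y w, by simpa [lift] using hw'⟩
    have l3 := hlen b₂ m fun i => (e3 i).trans ht
    obtain ⟨v, hv, hv'⟩ := (l1.mul l2).mul l3
    refine ⟨v, ?_, hv'.trans (le_of_eq (by ring))⟩
    rw [e2, e4, hev, hev, hv, ← hw, map_mul]
    group

end nf

/-- The group `ℤ^n ⋊ Q`, with generators the standard basis and `Y`, has a normal form that is
quasiregular with constant `c` and satisfies `s(m) ≤ F(m) + C (log m + 1)` for some `C`. -/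
def HasForm {n : ℕ} {Q κ : Type} [Group Q] (φ : Q →* GL (Fin n) ℤ) (Y : κ → Q) (c : ℕ)
    (F : ℕ → ℕ) : Prop :=
  ∃ (L : Set (List ((Fin n ⊕ κ) × Bool))) (C : ℕ), IsNormalForm (gens φ Y) L ∧
    Quasiregular L c ∧ FellowTravel (gens φ Y) L (fun m => F m + C * (Nat.log 2 m + 1))

/-- **Main result.**
(1) Let `Q` be a group with a normal form `L` that is quasiregular with constant `c` and satisfies
`s_L(m) ≤ F(m)`, and let `φ : Q → GL(n, ℤ)` be a homomorphism such that some `φ(q)` has no complex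
eigenvalue of absolute value `1`. Then `ℤ^n ⋊ Q` has a normal form that is quasiregular with
the same constant `c` and satisfies `s(m) ≤ F(m) + C (log m + 1)`.
(2) In particular, for every `n` and every `M ∈ GL(n, ℤ)` without complex eigenvalues of absolute
value `1`, the group `ℤ^n ⋊_M ℤ` has a prefix-closed normal form with `s(m) ≤ C (log m + 1)`.
(3) The matrices of the problem are of this kind. -/
theorem result :
    (∀ (n : ℕ) (Q κ : Type) [Group Q] [Finite κ] (φ : Q →* GL (Fin n) ℤ) (Y : κ → Q)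
      (L : Set (List (κ × Bool))) (c : ℕ) (F : ℕ → ℕ) (q : Q),
      IsNormalForm Y L → Quasiregular L c → FellowTravel Y L F → Hyperbolic (φ q) →
      HasForm φ Y c F) ∧
    (∀ (n : ℕ) (M : GL (Fin n) ℤ), Hyperbolic M →
      HasForm (zpowersHom _ M) (fun _ : Unit => Multiplicative.ofAdd (1 : ℤ)) 0 fun _ => 0) ∧
    (∀ (M : GL (Fin 2) ℤ) (l m : ℝ),
      ((M : Matrix (Fin 2) (Fin 2) ℤ).map (Int.cast : ℤ → ℝ)).charpoly =
        (X - C l) * (X - C m) → l ≠ 1 ∧ l ≠ -1 → m ≠ 1 ∧ m ≠ -1 → Hyperbolic M) := by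
  refine ⟨fun n Q κ _ _ φ Y L c F q h1 h2 h3 h4 => main φ Y L c F q h1 h2 h3 h4, ?_, ?_⟩
  · intro n M hM
    let Y : Unit → Multiplicative ℤ := fun _ => Multiplicative.ofAdd 1
    have hY : ∀ z : ℤ, ev Y (pw () z) = Multiplicative.ofAdd z := fun z => by
      rw [ev_pw, ← ofAdd_zsmul, smul_eq_mul, mul_one]
    obtain ⟨L, C, h1, h2, h3⟩ := main (zpowersHom (GL (Fin n) ℤ) M) Y
      {w | ∃ z : ℤ, w = pw () z} 0 (fun _ => 1) (Multiplicative.ofAdd 1)
      ⟨fun _ _ => trivial, by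
        rintro _ ⟨z, rfl⟩ _ ⟨z', rfl⟩ h
        rw [hY, hY] at h
        rw [Multiplicative.ofAdd.injective h], fun g _ => ⟨_, ⟨Multiplicative.toAdd g, rfl⟩, hY _⟩⟩
      (by
        rintro _ ⟨z, rfl⟩ u hu
        refine ⟨[], le_rfl, tr z u.length, ?_⟩
        rw [List.append_nil, ← take_pw]
        exact List.prefix_iff_eq_take.1 hu)
      (by
        rintro m _ ⟨z, rfl⟩ _ ⟨z', rfl⟩ i h t ht
        rw [hY, hY] at h
        have e1 : z + 1 = z' := Multiplicative.ofAdd.injective h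
        refine ⟨pw () (tr z' t - tr z t), ?_, ?_⟩
        · rw [take_pw, take_pw, hY, hY, hY, ← ofAdd_add]
          congr 1
          ring
        · have := tr_sub z' z t
          change (pw () (tr z' t - tr z t)).length ≤ 1
          rw [pw, List.length_replicate]
          omega)
      (by
        have : zpowersHom (GL (Fin n) ℤ) M (Multiplicative.ofAdd 1) = M := by simp
        rw [this]
        exact hM)
    refine ⟨L, C + 1, h1, h2, fun m w₁ hw₁ w₂ hw₂ i h t ht => ?_⟩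
    obtain ⟨w, e1, e2⟩ := h3 m w₁ hw₁ w₂ hw₂ i h t ht
    refine ⟨w, e1, e2.trans ?_⟩
    change 1 + C * (Nat.log 2 m + 1) ≤ 0 + (C + 1) * (Nat.log 2 m + 1)
    rw [add_mul, one_mul]
    omega
  · intro M l m hM hl hm z hz hz1
    have e : ((M : Matrix (Fin 2) (Fin 2) ℤ).map (Int.cast : ℤ → ℂ)).charpoly =
        (X - C (l : ℂ)) * (X - C (m : ℂ)) := by
      have h1 : (M : Matrix (Fin 2) (Fin 2) ℤ).map (Int.cast : ℤ → ℂ) =
          ((M : Matrix (Fin 2) (Fin 2) ℤ).map (Int.cast : ℤ → ℝ)).map (Complex.ofRealHom) := by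
        ext i j
        simp
      rw [h1, Matrix.charpoly_map, hM]
      simp
    rw [e] at hz
    have h2 : (z - l) * (z - m) = 0 := by simpa [IsRoot] using hz
    have key : ∀ r : ℝ, r ≠ 1 ∧ r ≠ -1 → z ≠ (r : ℂ) := by
      rintro r ⟨hr1, hr2⟩ rfl
      rw [Complex.norm_real, Real.norm_eq_abs] at hz1
      rcases abs_eq (zero_le_one) |>.1 hz1 with h | h
      · exact hr1 h
      · exact hr2 h
    rcases mul_eq_zero.1 h2 with h | h
    · exact key l hl (sub_eq_zero.1 h)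
    · exact key m hm (sub_eq_zero.1 h)

end Pool.Agent.Results.MP_df87fb_al.HyperbolicExtensions
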